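import Mathlib
import Pool.Agent.H.MP_84ba36_lc.A

set_option autoImplicit false

namespace Pool.Agent.Results.MP_84ba36_lc.Q1

open Cardinal Pool.Agent.H.MP_84ba36_lc

theorem result (h : BA ℕ ∨ BA Bool) : (2 : Cardinal.{0}) ^ ℵ₀ = 2 ^ ℵ₁ :=
  h.elim (q1 ℕ) (q1 Bool)

end Pool.Agent.Results.MP_84ba36_lc.Q1
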