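import Mathlib
import Pool.Agent.H.MP_84ba36_lc.B

set_option autoImplicit false

namespace Pool.Agent.Results.MP_84ba36_lc.Q2

open Cardinal Pool.Agent.H.MP_84ba36_lc

theorem result (h : BA ℕ ∨ BAw ℕ) : ℵ₁ < addN :=
  q2w (h.elim baw id)

end Pool.Agent.Results.MP_84ba36_lc.Q2
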